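import Mathlib

set_option autoImplicit false

open Set Cardinal

namespace Pool.Agent.Results.MP_6967ea_co.Attained

variable {V : Type}

/-- `D` is an orientation of `G`: each edge gets exactly one of its two arcs. -/
def IsOri (G : SimpleGraph V) (D : V → V → Prop) : Prop :=
  (∀ u v, G.Adj u v ↔ D u v ∨ D v u) ∧ ∀ u v, D u v → ¬ D v u

/-- `S` induces an acyclic subdigraph: no closed directed walk of `D` stays inside `S`. -/
def Acyc (D : V → V → Prop) (S : Set V) : Prop :=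
  ∀ v, ¬ Relation.TransGen (fun a b => a ∈ S ∧ b ∈ S ∧ D a b) v v

/-- The dichromatic number: the least number of classes of a partition into acyclic sets. -/
noncomputable def chi (D : V → V → Prop) : Cardinal.{0} :=
  sInf {c | ∃ (I : Type) (f : V → I), #I = c ∧ ∀ i, Acyc D (f ⁻¹' {i})}

def Cov (D : V → V → Prop) (S : Set V) (c : Cardinal.{0}) : Prop :=
  ∃ (I : Type) (A : I → Set V), #I ≤ c ∧ (∀ i, Acyc D (A i)) ∧ S ⊆ ⋃ i, A i

theorem Acyc.mono' {D E : V → V → Prop} {S T : Set V} (h : Acyc D T) (hs : S ⊆ T)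
    (hE : ∀ a ∈ S, ∀ b ∈ S, E a b → D a b) : Acyc E S := fun v hv =>
  h v (Relation.TransGen.mono
    (fun a b hab => ⟨hs hab.1, hs hab.2.1, hE a hab.1 b hab.2.1 hab.2.2⟩) v v hv)

theorem Acyc.mono {D : V → V → Prop} {S T : Set V} (h : Acyc D T) (hs : S ⊆ T) : Acyc D S :=
  h.mono' hs fun _ _ _ _ h => h

theorem Cov.mono {D : V → V → Prop} {S T : Set V} {c d : Cardinal.{0}} (h : Cov D T c)
    (hs : S ⊆ T) (hc : c ≤ d) : Cov D S d := by
  obtain ⟨I, A, h1, h2, h3⟩ := h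
  exact ⟨I, A, h1.trans hc, h2, hs.trans h3⟩

theorem Acyc.cov {D : V → V → Prop} {S : Set V} (h : Acyc D S) : Cov D S 1 :=
  ⟨Unit, fun _ => S, by simp, fun _ => h, subset_iUnion (fun _ : Unit => S) ()⟩

theorem Cov.union {D : V → V → Prop} {S T : Set V} {c d : Cardinal.{0}} (h : Cov D S c)
    (h' : Cov D T d) : Cov D (S ∪ T) (c + d) := by
  obtain ⟨I, A, h1, h2, h3⟩ := h
  obtain ⟨J, B, k1, k2, k3⟩ := h'
  refine ⟨I ⊕ J, Sum.elim A B, by simpa using add_le_add h1 k1, by rintro (i | i) <;> simp [*], ?_⟩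
  rintro v (hv | hv)
  · obtain ⟨i, hi⟩ := mem_iUnion.1 (h3 hv)
    exact mem_iUnion.2 ⟨Sum.inl i, hi⟩
  · obtain ⟨i, hi⟩ := mem_iUnion.1 (k3 hv)
    exact mem_iUnion.2 ⟨Sum.inr i, hi⟩

theorem cov_iUnion {D : V → V → Prop} {J : Type} {S : J → Set V} {c : Cardinal.{0}}
    (h : ∀ j, Cov D (S j) c) : Cov D (⋃ j, S j) (#J * c) := by
  choose I A h1 h2 h3 using h
  refine ⟨Σ j, I j, fun p => A p.1 p.2, ?_, fun p => h2 p.1 p.2, fun v hv => ?_⟩
  · rw [mk_sigma]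
    exact (sum_le_sum _ _ h1).trans (sum_const' J c).le
  · obtain ⟨j, hj⟩ := mem_iUnion.1 hv
    obtain ⟨i, hi⟩ := mem_iUnion.1 (h3 j hj)
    exact mem_iUnion.2 ⟨⟨j, i⟩, hi⟩

theorem chi_le {D : V → V → Prop} {c : Cardinal.{0}} (h : Cov D univ c) : chi D ≤ c := by
  obtain ⟨I, A, h1, h2, h3⟩ := h
  choose f hf using fun v => mem_iUnion.1 (h3 (mem_univ v))
  have k : #I ∈ {c | ∃ (I : Type) (f : V → I), #I = c ∧ ∀ i, Acyc D (f ⁻¹' {i})} := by
    refine ⟨I, f, rfl, fun i => (h2 i).mono fun v hv => ?_⟩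
    have : f v = i := hv
    exact this ▸ hf v
  exact (csInf_le' k).trans h1

theorem chi_spec {G : SimpleGraph V} {D : V → V → Prop} (h : IsOri G D) :
    ∃ (I : Type) (f : V → I), #I = chi D ∧ ∀ i, Acyc D (f ⁻¹' {i}) := by
  have : {c | ∃ (I : Type) (f : V → I), #I = c ∧ ∀ i, Acyc D (f ⁻¹' {i})}.Nonempty := by
    refine ⟨_, V, id, rfl, fun i v hv => ?_⟩
    obtain ⟨b, ⟨h1, h2, h3⟩, -⟩ := Relation.TransGen.head'_iff.1 hv
    have e1 : v = i := h1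
    have e2 : b = i := h2
    rw [e1, e2] at h3
    exact h.2 _ _ h3 h3
  exact csInf_mem this

theorem cov_chi {G : SimpleGraph V} {D : V → V → Prop} (h : IsOri G D) : Cov D univ (chi D) := by
  obtain ⟨I, f, h1, h2⟩ := chi_spec h
  exact ⟨I, _, h1.le, h2, fun v _ => mem_iUnion.2 ⟨f v, rfl⟩⟩

theorem glue {G : SimpleGraph V} {κ : Cardinal.{0}} (hκ : ℵ₀ ≤ κ) {J : Type} (hJ : #J ≤ κ)
    (E : J → V → V → Prop) (hE : ∀ j, IsOri G (E j)) (hc : ∀ j, chi (E j) ≤ κ) (W : J → Set V)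
    (hW : ∀ i j v, v ∈ W i → v ∈ W j → i = j) (hb : ∀ μ < κ, ∃ j, ¬ Cov (E j) (W j) μ) :
    ∃ D, IsOri G D ∧ chi D = κ := by
  obtain ⟨_, -⟩ := exists_wellFoundedLT V
  let D : V → V → Prop := fun u v => (∃ j, u ∈ W j ∧ v ∈ W j ∧ E j u v) ∨
    ((¬ ∃ j, u ∈ W j ∧ v ∈ W j) ∧ G.Adj u v ∧ u < v)
  have hD : IsOri G D := by
    refine ⟨fun u v => ⟨fun h => ?_, ?_⟩, ?_⟩
    · by_cases hj : ∃ j, u ∈ W j ∧ v ∈ W j
      · obtain ⟨j, h1, h2⟩ := hj
        rcases ((hE j).1 u v).1 h with k | k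
        · exact Or.inl (Or.inl ⟨j, h1, h2, k⟩)
        · exact Or.inr (Or.inl ⟨j, h2, h1, k⟩)
      · rcases lt_or_gt_of_ne h.ne with k | k
        · exact Or.inl (Or.inr ⟨hj, h, k⟩)
        · exact Or.inr (Or.inr ⟨fun ⟨j, h1, h2⟩ => hj ⟨j, h2, h1⟩, h.symm, k⟩)
    · rintro ((⟨j, -, -, k⟩ | k) | (⟨j, -, -, k⟩ | k))
      · exact ((hE j).1 u v).2 (Or.inl k)
      · exact k.2.1
      · exact ((hE j).1 u v).2 (Or.inr k)
      · exact k.2.1.symm
    · rintro u v (⟨i, h1, h2, h3⟩ | h) (⟨j, k1, k2, k3⟩ | k)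
      · obtain rfl := hW i j u h1 k2
        exact (hE i).2 u v h3 k3
      · exact k.1 ⟨i, h2, h1⟩
      · exact h.1 ⟨j, k2, k1⟩
      · exact lt_asymm h.2.2 k.2.2
  refine ⟨D, hD, le_antisymm (chi_le ?_) (not_lt.1 fun h => ?_)⟩
  · have h1 : ∀ j, Cov D (W j) κ := by
      intro j
      obtain ⟨I, A, k1, k2, k3⟩ := cov_chi (hE j)
      refine ⟨I, fun i => A i ∩ W j, k1.trans (hc j), fun i => (k2 i).mono' inter_subset_left ?_,
        fun v hv => ?_⟩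
      · rintro a ha b hb (⟨i', l1, -, l3⟩ | l)
        · obtain rfl := hW i' j a l1 ha.2
          exact l3
        · exact absurd ⟨j, ha.2, hb.2⟩ l.1
      · obtain ⟨i, hi⟩ := mem_iUnion.1 (k3 (mem_univ v))
        exact mem_iUnion.2 ⟨i, hi, hv⟩
    have h2 : Acyc D (⋃ j, W j)ᶜ := by
      intro v hv
      have : Relation.TransGen (· < ·) v v := Relation.TransGen.mono (by
        rintro a b ⟨ha, -, ⟨j, l1, -⟩ | l⟩
        · exact absurd (mem_iUnion.2 ⟨j, l1⟩) ha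
        · exact l.2.2) v v hv
      rw [Relation.transGen_eq_self] at this
      exact lt_irrefl _ this
    refine ((cov_iUnion h1).union h2.cov).mono (union_compl_self _).ge ?_
    exact add_le_of_le hκ ((mul_le_mul' hJ le_rfl).trans (mul_eq_self hκ).le)
      (one_le_aleph0.trans hκ)
  · obtain ⟨j, hj⟩ := hb _ h
    obtain ⟨I, A, k1, k2, k3⟩ := cov_chi hD
    refine hj ⟨I, fun i => A i ∩ W j, k1, fun i => (k2 i).mono' inter_subset_left ?_,
      fun v hv => ?_⟩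
    · exact fun a ha b hb h => Or.inl ⟨j, ha.2, hb.2, h⟩
    · obtain ⟨i, hi⟩ := mem_iUnion.1 (k3 (mem_univ v))
      exact mem_iUnion.2 ⟨i, hi, hv⟩

theorem cofam (κ : Cardinal.{0}) (ι : Type) (h : #ι = κ.ord.cof) :
    ∃ f : ι → Cardinal.{0}, (∀ i, f i < κ) ∧ ∀ a < κ, ∃ i, a ≤ f i := by
  obtain ⟨s, hs, hc⟩ := Order.exists_cof_eq (α := Iio κ.ord)
  rw [Ordinal.cof_Iio, ← Ordinal.lift_cof, ← h] at hc
  have : Nonempty (ι ≃ s) := by
    rw [← Cardinal.lift_mk_eq'.{0, 1}, hc]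
    simp
  obtain ⟨e⟩ := this
  refine ⟨fun i => (e i).1.1.card, fun i => lt_ord.1 (e i).1.2, fun a ha => ?_⟩
  obtain ⟨b, hb, hab⟩ := hs ⟨a.ord, ord_lt_ord.2 ha⟩
  refine ⟨e.symm ⟨b, hb⟩, ?_⟩
  simp only [Equiv.apply_symm_apply]
  exact ord_le.1 hab

theorem singular {G : SimpleGraph V} {κ : Cardinal.{0}} (hκ : ℵ₀ < κ) (hs : κ.ord.cof < κ)
    (hp : ∀ ν < κ, ∀ σ < κ.ord.cof, ν ^ σ < κ) {ι : Type} (D : ι → V → V → Prop)
    (hD : ∀ ξ, IsOri G (D ξ)) (h1 : ∀ ξ, chi (D ξ) < κ) (h2 : ∀ μ < κ, ∃ ξ, μ < chi (D ξ)) :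
    ∃ E, IsOri G E ∧ chi E = κ := by
  let J := κ.ord.cof.ord.ToType
  have hJ : #J = κ.ord.cof := by simp [J]
  have hJI : ∀ j : J, #(Iio j) < κ.ord.cof := fun j => (mk_Iio_lt j (by simp [J])).trans_eq hJ
  obtain ⟨k, hk1, hk2⟩ := cofam κ J hJ
  let b : ∀ j : J, (Iio j → ι) → Cardinal.{0} := fun j g =>
    max (max (k j) (max κ.ord.cof ℵ₀)) (prod fun η => chi (D (g η)))
  have hb : ∀ j g, b j g < κ := by
    intro j g
    refine max_lt (max_lt (hk1 j) (max_lt hs hκ)) ?_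
    refine lt_of_le_of_lt ?_ (hp _ (iSup_lt_of_lt_cof_ord (hJI j) fun η => h1 (g η)) _ (hJI j))
    rw [← prod_const']
    exact prod_le_prod _ _ fun η => le_ciSup (f := fun η => chi (D (g η))) bddAbove_of_small η
  choose st hst using fun j g => h2 _ (hb j g)
  let m : J → ι := WellFounded.fix (wellFounded_lt (α := J))
    (fun j ih => st j (fun z => ih z.1 z.2))
  have hm : ∀ j, m j = st j (fun z => m z.1) := fun j => WellFounded.fix_eq _ _ _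
  let μ : J → Cardinal.{0} := fun j => b j (fun z => m z.1)
  have hμ : ∀ j, μ j < chi (D (m j)) := fun j => by rw [hm j]; exact hst j _
  have hμ0 : ∀ j, ℵ₀ ≤ μ j := fun j =>
    (le_max_right _ _).trans ((le_max_right _ _).trans (le_max_left _ _))
  have hμJ : ∀ j, #J ≤ μ j := fun j =>
    hJ.le.trans ((le_max_left _ _).trans ((le_max_right _ _).trans (le_max_left _ _)))
  choose I f hI hf using fun ξ => chi_spec (hD ξ)
  have hT : ∀ j, ∃ p : ∀ η : Iio j, I (m η.1),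
      ¬ Cov (D (m j)) {v | ∀ η : Iio j, f (m η.1) v = p η} (μ j) := by
    intro j
    by_contra h
    push Not at h
    refine absurd (hμ j) (not_lt.2 (chi_le ((cov_iUnion h).mono
      (fun v _ => mem_iUnion.2 ⟨fun η => f (m η.1) v, fun η => rfl⟩) ?_)))
    refine (mul_le_mul' ?_ le_rfl).trans (mul_eq_self (hμ0 j)).le
    rw [mk_pi]
    simp only [hI]
    exact le_max_right _ _
  choose p hp' using hT
  let T : J → Set V := fun j => {v | ∀ η : Iio j, f (m η.1) v = p j η}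
  refine glue hκ.le (hJ.le.trans hs.le) (fun j => D (m j)) (fun j => hD _) (fun j => (h1 _).le)
    (fun j => T j \ ⋃ z : Ioi j, T z.1) (fun i j v hi hj => ?_) fun ν hν => ?_
  · by_contra h
    rcases lt_or_gt_of_ne h with h | h
    · exact hi.2 (mem_iUnion.2 ⟨⟨j, h⟩, hj.1⟩)
    · exact hj.2 (mem_iUnion.2 ⟨⟨i, h⟩, hi.1⟩)
  · obtain ⟨j, hj⟩ := hk2 ν hν
    refine ⟨j, fun h => hp' j ?_⟩
    have h3 : ∀ z : Ioi j, Cov (D (m j)) (T z.1) 1 := fun z =>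
      ((hf (m j) (p z.1 ⟨j, z.2⟩)).mono (S := T z.1) fun v hv => hv ⟨j, z.2⟩).cov
    refine (h.union (cov_iUnion h3)).mono (subset_sdiff_union _ _) (add_le_of_le (hμ0 j) ?_ ?_)
    · exact hj.trans ((le_max_left _ _).trans (le_max_left _ _))
    · rw [mul_one]
      exact (mk_set_le _).trans (hμJ j)

theorem countable {G : SimpleGraph V} {ι : Type} (D : ι → V → V → Prop)
    (hD : ∀ ξ, IsOri G (D ξ)) (h1 : ∀ ξ, chi (D ξ) < ℵ₀) (h2 : ∀ μ < ℵ₀, ∃ ξ, μ < chi (D ξ)) :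
    ∃ E, IsOri G E ∧ chi E = ℵ₀ := by
  let Big : Set V → Prop := fun W => ∀ μ < ℵ₀, ∃ ξ, ¬ Cov (D ξ) W μ
  have h0 : Big univ := fun μ hμ => by
    obtain ⟨ξ, h⟩ := h2 μ hμ
    exact ⟨ξ, fun hc => absurd h (not_lt.2 (chi_le hc))⟩
  have step : ∀ (n : ℕ) (W : {W // Big W}), ∃ W' : {W // Big W}, ∃ ξ, W'.1 ⊆ W.1 ∧
      ¬ Cov (D ξ) (W.1 \ W'.1) n := by
    intro n W
    obtain ⟨ξ, hξ⟩ := W.2 (n + 1) (add_lt_aleph0 natCast_lt_aleph0 one_lt_aleph0)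
    obtain ⟨I, f, hI, hf⟩ := chi_spec (hD ξ)
    have hI' : #I < ℵ₀ := hI ▸ h1 ξ
    have : ∃ i, Big (W.1 ∩ f ⁻¹' {i}) := by
      by_contra h
      simp only [Big] at h
      push Not at h
      choose c hc1 hc2 using h
      have hs : ⨆ i, c i < ℵ₀ := iSup_lt_of_lt_cof_ord (by simpa using hI') hc1
      obtain ⟨ζ, hζ⟩ := W.2 _ (mul_lt_aleph0 hI' hs)
      refine hζ ((cov_iUnion fun i => (hc2 i ζ).mono Subset.rfl
        (le_ciSup bddAbove_of_small i)).mono (fun v hv => mem_iUnion.2 ⟨f v, hv, rfl⟩) le_rfl)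
    obtain ⟨i, hi⟩ := this
    refine ⟨⟨_, hi⟩, ξ, inter_subset_left, fun h => hξ ?_⟩
    exact (h.union ((hf i).mono inter_subset_right).cov).mono (subset_sdiff_union _ _) le_rfl
  choose nx ξ hn1 hn2 using step
  let W : ℕ → {W // Big W} := fun n => Nat.rec ⟨univ, h0⟩ (fun n w => nx n w) n
  have hW : Antitone fun n => (W n).1 := antitone_nat_of_succ_le fun n => hn1 n (W n)
  refine glue le_rfl (by simp) (fun n : ℕ => D (ξ n (W n))) (fun n => hD _) (fun n => (h1 _).le)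
    (fun n => (W n).1 \ (W (n + 1)).1) (fun i j v hi hj => ?_) fun μ hμ => ?_
  · by_contra h
    rcases lt_or_gt_of_ne h with h | h
    · exact hi.2 (hW (Nat.succ_le_of_lt h) hj.1)
    · exact hj.2 (hW (Nat.succ_le_of_lt h) hi.1)
  · obtain ⟨n, rfl⟩ := lt_aleph0.1 hμ
    exact ⟨n, hn2 n (W n)⟩

theorem result (V : Type) (G : SimpleGraph V) (κ : Cardinal.{0}) (hκ : ℵ₀ ≤ κ)
    (h : κ.ord.cof = ℵ₀ ∨ (κ.ord.cof < κ ∧ ∀ ν < κ, ∀ σ < κ.ord.cof, ν ^ σ < κ))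
    (ι : Type) (D : ι → V → V → Prop) (hD : ∀ ξ, IsOri G (D ξ))
    (hs : ⨆ ξ, chi (D ξ) = κ) : ∃ E, IsOri G E ∧ chi E = κ := by
  by_cases he : ∃ ξ, chi (D ξ) = κ
  · obtain ⟨ξ, hξ⟩ := he
    exact ⟨_, hD ξ, hξ⟩
  push Not at he
  have h1 : ∀ ξ, chi (D ξ) < κ := fun ξ => lt_of_le_of_ne
    (hs ▸ le_ciSup (f := fun ξ => chi (D ξ)) bddAbove_of_small ξ) (he ξ)
  have h2 : ∀ μ < κ, ∃ ξ, μ < chi (D ξ) := fun μ hμ => by
    by_contra hh
    push Not at hh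
    exact absurd hμ (not_lt.2 (hs ▸ ciSup_le' hh))
  rcases hκ.eq_or_lt with rfl | hκ'
  · exact countable D hD h1 h2
  rcases h with h | h
  · refine singular hκ' (h ▸ hκ') (fun ν hν σ hσ => ?_) D hD h1 h2
    rw [h] at hσ
    obtain ⟨n, rfl⟩ := lt_aleph0.1 hσ
    exact power_nat_le_max.trans_lt (max_lt hν hκ')
  · exact singular hκ' h.1 h.2 D hD h1 h2

end Pool.Agent.Results.MP_6967ea_co.Attained
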